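import Pool.Agent.Q207.SSC2

/-- Propagating simple semi-conditional grammars of degree `(1, 1)` generate the same languages as
propagating semi-conditional grammars of degree `(1, 1)`. -/
theorem Pool.Agent.Results.MP_84f0c5_lc.PropagatingEq.result (T : Type) [Finite T] :
    Q207.SSC.SSCprop T 1 1 = Q207.SSC.SCprop T 1 1 :=
  Q207.SSC.SSCprop_eq T
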